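import Pool.Agent.Rtw.Ptb

/-!
# The Response Time Variability problem with few copies of the sparse models is in NP

`D` is the sum of the demands `d_i`, a sequence is read cyclically, and the age of a model at a position is the
distance back to its last copy. Fix `R`. A model is frequent if `D ≤ R d_i` (there are at most `R` such models), and
let `k` be the number of all copies of the other models.

(1) If `T_i` is the sum of the ages of the model `i` over all positions, then `2 T_i` is `D` plus the sum of the
squares of the distances of `i`. So the variability is minimal if the sum of the `T_i` is minimal.

(2) In a sequence of minimal variability every window of `12 R + 3` positions with frequent models only contains all
the frequent models: if `i` does not occur in the window, then a frequent model `j` has two consecutive distances of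
sum `< 4 R` in the middle third of the window, and `i` has two consecutive distances of sum `< 4 R` somewhere; exchange
the two copies between them. This does not change the distances of the other models, `T_i` changes by at most
`4 R ^ 2 - (4 R + 2) ^ 2` and `T_j` by at most `4 R ^ 2`.

(3) So between two consecutive copies of the other models the sequence is, but for its first `12 R + 3` letters, a
word which is read by the finite automaton of the ages of the frequent models. Every word in a finite automaton can be
rearranged, with the same transitions, to a product of a bounded number of powers of words of bounded length (remove
cycles as long as all visited states remain visited, and insert their powers in the rest). This changes neither the
number of copies nor the variability.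

(4) So every instance has an optimal sequence `u_1 ^ e_1 u_2 ^ e_2 ... u_m ^ e_m` with `|u_j| ≤ c` and `m ≤ c (k + 1)`,
where `c` depends on `R` only. The certificate consists of the words `u_j`, the exponents `e_j` and bounds for the
ages of all models before `u_j ^ e_j` and for the distances at the letters of `u_j` (in the first `u_j`, and in the
others), which can be checked locally. The length `D` may be exponential in the length of the input.
-/

set_option autoImplicit false

open Pool.NPC Rtw

/-- For all `R` and all polynomials `q`, the decision counterpart of the Response Time Variability problem (all
numbers in binary), restricted to the instances in which the models `i` with `R * d i < D` have together at most `q N`
copies, `N` the length of the input, is in NP. -/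
theorem Pool.Agent.Results.MP_0ed484_lc.FewSparseCopies.result (R : ℕ) (q : Polynomial ℕ) :
    InNP (sparseRTV R q) :=
  Rtw.mainNP R q
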