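import Mathlib
import Pool.Agent.NPC.Defs
import Pool.Agent.Rtv.Def
import Pool.Agent.Rtv.Fin

set_option autoImplicit false

/-!
# The Response Time Variability problem with a polynomially bounded variability is in NP

Proof: at most `4 K` of the distances of a sequence with variability `≤ K` differ from the integer
nearest to `D / d i`; cutting behind these copies and behind the last copy of every model gives at
most `4 K + n` arithmetic progressions. The certificate lists them, together with short proofs that
they are pairwise disjoint (Bezout coefficients and the least common element `≥ max a a'` of the two
infinite progressions), and the verifier checks that the distances and the variability are right.
-/

open Pool.NPC Pool.Agent.Rtv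

/-- For every polynomial `q`, the decision counterpart of the Response Time Variability problem
(all numbers in binary), restricted to the instances whose bound `K` is at most `q N`, `N` the
length of the input, is in NP. -/
theorem Pool.Agent.Results.MP_0ed484_lc.SmallVariability.result (q : Polynomial ℕ) :
    InNP (smallRTV q) :=
  Pool.Agent.Rtv.main q
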